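import Pool.Agent.J4H75.PN.Main

/-!
# Powers of pi on blocks of consecutive exponents

For every `δ > 0` there are `K` and `η > 0` such that among any `K` consecutive large `n` there is one for which
the value at `n` of an exponential polynomial with dominant part `R₀(n) π ^ n` has distance at least `e ^ (-δ n)`
from all rational numbers of denominator at most `e ^ (η n)`.
-/

set_option autoImplicit false

open Polynomial

namespace Pool.Agent.Results.MP_9056e9_nt.BlocksOfPowersOfPi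

/-- `x` has a transcendence measure of polynomial type in every degree: for every `D` there are `κ ≥ 0` and
`c > 0` with `|P(x)| ≥ c H ^ (-κ)` for all nonzero integer polynomials `P` of degree at most `D` whose
coefficients are at most `H` in absolute value. -/
def Measured (x : ℂ) : Prop :=
  ∀ D : ℕ, ∃ κ c : ℝ, 0 ≤ κ ∧ 0 < c ∧ ∀ P : ℤ[X], P ≠ 0 → P.natDegree ≤ D →
    ∀ H : ℝ, 1 ≤ H → (∀ j, |(P.coeff j : ℝ)| ≤ H) → c ≤ H ^ κ * ‖aeval x P‖

theorem result (x : ℂ) (hx : x = (Real.pi : ℂ) ∨ 1 < ‖x‖ ∧ Measured x) (d m : ℕ) (a : Fin m → ℂ)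
    (ha : ∀ i, a i ≠ x) (δ : ℝ) (hδ : 0 < δ) :
    ∃ (K : ℕ) (η : ℝ) (M₀ : ℕ), 0 < η ∧ ∀ M : ℕ, M₀ ≤ M → ∀ (R₀ : ℂ[X]) (R : Fin m → ℂ[X]),
      R₀.natDegree ≤ d → (∀ i, (R i).natDegree ≤ d) →
      (∀ j, ‖R₀.coeff j‖ ≤ Real.exp M) → (∀ i j, ‖(R i).coeff j‖ ≤ Real.exp M) →
      1 ≤ ‖R₀.leadingCoeff‖ * ‖x‖ ^ M →
      ∃ n : ℕ, M ≤ n ∧ n < M + K ∧ ∀ (p : ℤ) (q : ℕ), 1 ≤ q → (q : ℝ) ≤ Real.exp (η * n) →
        Real.exp (-(δ * n)) ≤ ‖R₀.eval (n : ℂ) * x ^ n + ∑ i, (R i).eval (n : ℂ) * a i ^ n - (p : ℂ) / q‖ := by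
  have h1 : 1 < ‖x‖ := by
    rcases hx with rfl | hx
    · rw [Complex.norm_real, Real.norm_of_nonneg Real.pi_pos.le]
      linarith [Real.pi_gt_three]
    · exact hx.1
  have h2 : Pool.Agent.TH456.TM.MeasT x := by
    rcases hx with rfl | hx
    · exact Pool.Agent.TH456.TM.measT_pi
    · exact hx.2
  exact Pool.Agent.J4H75.PN.blocks x h2 h1 m d a ha δ hδ

end Pool.Agent.Results.MP_9056e9_nt.BlocksOfPowersOfPi
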