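import Pool.Agent.J4H75.PN.DilateB

/-!
# Integral dilates of the powers of pi

For every `ε > 0` and `s` there are `C` and `N₀` such that for every block of `N ≥ N₀` consecutive exponents
`n ∈ [M, M + N)` and every interval of `H ≥ e ^ (C (M + N))` consecutive integers `h`, all but at most `ε H` of these
`h` are such that the points `h (π ^ n, π ^ (n + 1), …, π ^ (n + s - 1))` modulo one, `n` in the block, have
discrepancy at most `ε` with respect to all boxes of the `s`-dimensional torus.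
-/

set_option autoImplicit false

open Polynomial

namespace Pool.Agent.Results.MP_9056e9_nt.DilatesOfPowersOfPi

/-- `x` has a transcendence measure of polynomial type in every degree: for every `D` there are `κ ≥ 0` and
`c > 0` with `|P(x)| ≥ c H ^ (-κ)` for all nonzero integer polynomials `P` of degree at most `D` whose
coefficients are at most `H` in absolute value. -/
def Measured (x : ℝ) : Prop :=
  ∀ D : ℕ, ∃ κ c : ℝ, 0 ≤ κ ∧ 0 < c ∧ ∀ P : ℤ[X], P ≠ 0 → P.natDegree ≤ D →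
    ∀ H : ℝ, 1 ≤ H → (∀ j, |(P.coeff j : ℝ)| ≤ H) → c ≤ H ^ κ * |aeval x P|

theorem result (x : ℝ) (hx : x = Real.pi ∨ 1 < x ∧ Measured x) (s : ℕ) (ε : ℝ) (hε : 0 < ε) :
    ∃ (C : ℝ) (N₀ : ℕ), ∀ M N : ℕ, N₀ ≤ N →
      ∀ ξ : ℝ, Real.exp (-((M : ℝ) + N)) ≤ |ξ| → |ξ| ≤ Real.exp ((M : ℝ) + N) →
      ∀ (A : ℤ) (H : ℕ), Real.exp (C * (M + N)) ≤ H → ∃ E : Finset ℤ, (E.card : ℝ) ≤ ε * H ∧
        ∀ h ∈ Finset.Ioc A (A + H), h ∉ E → ∀ a b : Fin s → ℝ, (∀ i, 0 ≤ a i) → (∀ i, a i ≤ b i) → (∀ i, b i ≤ 1) →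
          |((((Finset.Ico M (M + N)).filter (fun n => ∀ i, a i ≤ Int.fract (h * (ξ * x ^ (n + (i : ℕ)))) ∧
            Int.fract (h * (ξ * x ^ (n + (i : ℕ)))) < b i)).card : ℕ) : ℝ) - (∏ i, (b i - a i)) * N| ≤ ε * N := by
  have h1 : 1 < x := by
    rcases hx with rfl | hx
    · linarith [Real.pi_gt_three]
    · exact hx.1
  have h2 : Pool.Agent.TH456.TM.MeasT (x : ℂ) := by
    rcases hx with rfl | hx
    · exact Pool.Agent.TH456.TM.measT_pi
    · intro D
      obtain ⟨κ, c, hκ, hc, h⟩ := hx.2 D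
      refine ⟨κ, c, hκ, hc, fun P hP hD H hH hc' => ?_⟩
      have h3 : aeval (x : ℂ) P = ((aeval x P : ℝ) : ℂ) := by
        rw [← Complex.coe_algebraMap, aeval_algebraMap_apply]
      rw [h3, Complex.norm_real, Real.norm_eq_abs]
      exact h P hP hD H hH hc'
  convert Pool.Agent.J4H75.PN.dilates x h1 h2 s ε hε

end Pool.Agent.Results.MP_9056e9_nt.DilatesOfPowersOfPi
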