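import Pool.Agent.J4H75.CM.G3

/-!
# Random multiples of the powers of `π`

Let `f_j(t) = r(J_j) t + V_j`, `j = 0, 1, 2, …`, be independent random contractions of the line, where the indices `J_j`
have the same law on a finite set, and let `X = lim f_0 ∘ f_1 ∘ ⋯ ∘ f_n (0)`. The laws of such `X` include all
self-similar measures and the laws of all series `∑ Y_j / β^(j+1)` with independent digits in a real base `β > 1`.
Under a condition which only excludes degenerate cases, and for every transcendental `q > 1`, almost surely `X q^n`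
is completely equidistributed modulo 1, also along sequences of positive lower density, after any shifts, and for
smooth images `g(X)` in place of `X`. In particular every self-similar measure which is not a point mass gives full
measure to the numbers which are normal to base `π`.
-/

set_option autoImplicit false

namespace Pool.Agent.Results.MP_9056e9_nt.RandomSeriesInBasePi

open MeasureTheory ProbabilityTheory Filter

/-- The points `(ξ q^(a_k + i) + y_{k,i})_{i < s}`, `k = 0, 1, 2, …`, are equidistributed modulo 1, uniformly over all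
boxes. -/
def Equi (q : ℝ) (a : ℕ → ℕ) {s : ℕ} (y : ℕ → Fin s → ℝ) (ξ : ℝ) : Prop :=
  ∀ ε : ℝ, 0 < ε → ∀ᶠ K : ℕ in atTop, ∀ α γ : Fin s → ℝ, (∀ i, 0 ≤ α i ∧ α i ≤ γ i ∧ γ i ≤ 1) →
    |(((Finset.range K).filter (fun k => ∀ i : Fin s, α i ≤ Int.fract (ξ * q ^ (a k + i) + y k i) ∧
      Int.fract (ξ * q ^ (a k + i) + y k i) < γ i)).card : ℝ) / K - ∏ i, (γ i - α i)| ≤ ε

/-- The linear coefficient of the random affine map `f_n ∘ f_{n+1} ∘ ⋯ ∘ f_{n+m-1}`, `f_j(t) = r(J_j) t + V_j`. -/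
noncomputable def lin {Ω ι : Type} (r : ι → ℝ) (J : ℕ → Ω → ι) (n m : ℕ) (ω : Ω) : ℝ :=
  ∏ l ∈ Finset.range m, r (J (n + l) ω)

/-- The constant coefficient of the random affine map `f_n ∘ f_{n+1} ∘ ⋯ ∘ f_{n+m-1}`, `f_j(t) = r(J_j) t + V_j`. -/
noncomputable def con {Ω ι : Type} (r : ι → ℝ) (J : ℕ → Ω → ι) (V : ℕ → Ω → ℝ) (n m : ℕ) (ω : Ω) : ℝ :=
  ∑ l ∈ Finset.range m, lin r J n l ω * V (n + l) ω

theorem result (Ω : Type) [MeasurableSpace Ω] (μ : Measure Ω) [IsProbabilityMeasure μ] (ι : Type) [Fintype ι]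
    [MeasurableSpace ι] [DiscreteMeasurableSpace ι] (J : ℕ → Ω → ι) (V : ℕ → Ω → ℝ) (p r : ι → ℝ) (D c u ρ : ℝ)
    (B H : ℕ) (X : Ω → ℝ) (g : ℝ → ℝ) (q : ℝ) (a : ℕ → ℕ) (C : ℝ) (s : ℕ) (y : ℕ → Fin s → ℝ)
    (hJ : ∀ j, Measurable (J j)) (hV : ∀ j, Measurable (V j)) (hi : iIndepFun (fun j ω => (J j ω, V j ω)) μ)
    (hp : ∀ i, 0 < p i) (hJp : ∀ j i, μ.real (J j ⁻¹' {i}) = p i) (hr : ∀ i, r i ≠ 0 ∧ |r i| < 1)
    (hD : ∀ j ω, |V j ω| ≤ D) (hc : 0 < c) (hu : 0 < u)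
    (h : ∀ n, ∃ (x : ℝ) (m : ℕ), 1 ≤ m ∧ m ≤ H ∧ c ≤ μ.real {ω | lin r J n B ω = ρ ∧ con r J V n B ω = x} ∧
      c ≤ μ.real {ω | lin r J n B ω = ρ ∧ con r J V n B ω = x + m * u})
    (hX : ∀ ω, Tendsto (fun m => con r J V 0 m ω) atTop (nhds (X ω)))
    (hg : ∀ᵐ ω ∂μ, ContDiffAt ℝ 1 g (X ω) ∧ deriv g (X ω) ≠ 0)
    (hq : 1 < q) (hqT : q = Real.pi ∨ q = Real.exp 1 ∨ Transcendental ℚ q)
    (ha : StrictMono a) (hC : ∀ᶠ k : ℕ in atTop, (a k : ℝ) ≤ C * k) :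
    ∀ᵐ ω ∂μ, Equi q a y (g (X ω)) := by
  have hT := Pool.Agent.J4H75.CN.base_tr hqT
  obtain ⟨r0, r1, h0, h1, h2, h3⟩ := Pool.Agent.J4H75.CM.ratio_consts r hr (μ := μ) (J 0)
  have hRs : Pool.Agent.J4H75.CM.Rs μ J V p r r0 r1 D := ⟨hJ, hV, hi, hJp, hp, h0, h1, h2, h3, hD⟩
  have hXe : X = Pool.Agent.J4H75.CM.tl r J V 0 := by
    funext ω
    have h4 := Pool.Agent.J4H75.CM.tl_tendsto (I := J) (fun i => (h3 i).2) h1.le h2 hD 0 ω
    exact tendsto_nhds_unique (hX ω) h4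
  subst hXe
  exact Pool.Agent.J4H75.CM.rand_series hRs hc hu h hq hT hg ha hC s y

end Pool.Agent.Results.MP_9056e9_nt.RandomSeriesInBasePi
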