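import Pool.Agent.J4H40.Eg

/-!
# Multiples of the powers of `e` by typical points of self-similar measures

Almost every number of the middle-thirds Cantor set is normal to base `e`. More generally let `X` be a random real
number with independent digits in an integer base, or with a self-similar law whose contraction ratios are powers of
`1/b`. Then almost surely `(X e^n)` is completely equidistributed modulo 1, also along the primes and other sequences
of small growth and also after any shifts, with a bound for the exponential sums.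
-/

set_option autoImplicit false

namespace Pool.Agent.Results.MP_9056e9_nt.SelfSimilarMultiples

open MeasureTheory ProbabilityTheory Filter

/-- The points `(ξ e^(a_k + i) + y_{k,i})_{i < r}`, `k = 0, 1, 2, …`, have exponential sums
`≤ K exp(-κ (log K)^(1/3))` (every nonzero integer vector `h`, `K` large) and are equidistributed modulo 1, uniformly
over all boxes. -/
def Equi (κ : ℝ) (a : ℕ → ℕ) {r : ℕ} (y : ℕ → Fin r → ℝ) (ξ : ℝ) : Prop :=
  (∀ h : Fin r → ℤ, h ≠ 0 → ∀ᶠ K : ℕ in atTop,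
    ‖∑ k ∈ Finset.range K, Complex.exp (2 * Real.pi * Complex.I *
      (∑ i : Fin r, h i * (ξ * Real.exp (a k + i : ℕ) + y k i) : ℝ))‖ ≤ K * Real.exp (-(κ * Real.log K ^ (1 / 3 : ℝ)))) ∧
  ∀ ε : ℝ, 0 < ε → ∀ᶠ K : ℕ in atTop, ∀ α β : Fin r → ℝ, (∀ i, 0 ≤ α i ∧ α i ≤ β i ∧ β i ≤ 1) →
    |(((Finset.range K).filter (fun k => ∀ i : Fin r, α i ≤ Int.fract (ξ * Real.exp (a k + i : ℕ) + y k i) ∧
      Int.fract (ξ * Real.exp (a k + i : ℕ) + y k i) < β i)).card : ℝ) / K - ∏ i, (β i - α i)| ≤ ε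

/-- The random number `X` is almost surely normal to base `e`, in a strong sense. -/
def Normal {Ω : Type} [MeasurableSpace Ω] (μ : Measure Ω) (X : Ω → ℝ) : Prop :=
  ∃ κ : ℝ, 0 < κ ∧ ∀ a : ℕ → ℕ, StrictMono a → ∀ γ : ℝ, 0 ≤ γ → γ < 1 / 3 →
    (∀ᶠ k : ℕ in atTop, (a k : ℝ) ≤ k * Real.exp (Real.log k ^ γ)) →
    ∀ (r : ℕ) (y : ℕ → Fin r → ℝ), ∀ᵐ ω ∂μ, Equi κ a y (X ω)

theorem result :
    (∀ (Ω : Type) [MeasurableSpace Ω] (μ : Measure Ω) [IsProbabilityMeasure μ] (b : ℕ) (Y : ℕ → Ω → ℝ)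
      (D c u : ℝ) (H : ℕ), 2 ≤ b → (∀ j, Measurable (Y j)) → iIndepFun Y μ → (∀ j ω, |Y j ω| ≤ D) → 0 < c → 0 < u →
      (∀ j, ∃ (v : ℝ) (k : ℕ), 1 ≤ k ∧ k ≤ H ∧ c ≤ μ.real (Y j ⁻¹' {v}) ∧ c ≤ μ.real (Y j ⁻¹' {v + k * u})) →
      Normal μ (fun ω => ∑' j, Y j ω / (b : ℝ) ^ (j + 1))) ∧
    (∀ (ι : Type) [Fintype ι] (ν : Measure ℝ) [IsProbabilityMeasure ν] (b : ℕ) (p r v : ι → ℝ), 2 ≤ b →
      (∀ i, 0 < p i) → (∀ i, ∃ k : ℕ, 1 ≤ k ∧ |r i| = 1 / (b : ℝ) ^ k) →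
      ν = ∑ i, ENNReal.ofReal (p i) • ν.map (fun x => r i * x + v i) →
      (∃ i j, v i * (1 - r j) ≠ v j * (1 - r i)) →
      Normal ν (fun x => x)) := by
  constructor
  · intro Ω _ μ _ b Y D c u H hb hY hi hD hc hu h
    exact Pool.Agent.J4H40.Ca.equi_digits hb hY hi hD hc hu h
  · intro ι _ ν _ b p r v hb hp hr hν hne
    exact Pool.Agent.J4H40.Ca.equi_selfsim hb hp hr hν hne

end Pool.Agent.Results.MP_9056e9_nt.SelfSimilarMultiples
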